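import Pool.Agent.Helper81.UR2.Goals

/-!
# SIZ: the sizes (project UR2, MP_c578c8_lc)
-/

namespace Pool.Agent.Helper31.UR2

open Pool.Agent.Helper65.LinSpace Pool.Agent.Helper78.Mpc
open Pool.Agent.Helper81.RP (wd num_wd wd_num length_wd length_wd_le pair_lt)
open Pool.Agent.Helper53.UV (CM)
open Pool.Agent.Helper81.UR2

theorem cdl_lt {E : ℕ} (l : List ℕ) (h : ∀ a ∈ l, a < 2 ^ E) :
    cdl l < 2 ^ (2 ^ l.length * E) := by
  induction l with
  | nil =>
    show 0 < _
    positivity
  | cons a l ih =>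
    have h1 : a < 2 ^ (2 ^ l.length * E) := (h a (by simp)).trans_le
      (Nat.pow_le_pow_right (by norm_num) (Nat.le_mul_of_pos_left _ (by positivity)))
    have h2 := pair_lt h1 (ih fun b hb => h b (by simp [hb]))
    show Nat.pair a (cdl l) < _
    refine h2.trans_le (le_of_eq ?_)
    congr 1
    rw [List.length_cons, pow_succ]
    ring

theorem cdl_lt' {E m : ℕ} (l : List ℕ) (h : ∀ a ∈ l, a < 2 ^ E) (hm : l.length = m) {e : ℕ}
    (he : e = 2 ^ m * E) : cdl l < 2 ^ e := by
  rw [he, ← hm]
  exact cdl_lt l h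

theorem num_lt' (w : List Bool) : num w < 2 ^ (w.length + 1) := by
  have h := Nat.lt_pow_succ_log_self (b := 2) (by norm_num) (num w)
  rwa [Pool.Agent.Helper78.Avg.log_num] at h

theorem pow_le_num' (w : List Bool) : 2 ^ w.length ≤ num w := by
  have := Nat.pow_log_le_self 2 (show num w ≠ 0 from (Pool.Agent.Helper78.Avg.num_pos w).ne')
  rwa [Pool.Agent.Helper78.Avg.log_num] at this

theorem num_div {u v : List Bool} {m : ℕ} (hu : u.length = m) :
    num (u ++ v) / 2 ^ m = num v := by
  have h1 := num_append u v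
  have h2 := num_lt' u
  have h3 := pow_le_num' u
  rw [hu] at h1 h2 h3
  rw [pow_succ] at h2
  have h4 : num (u ++ v) = (num u - 2 ^ m) + 2 ^ m * num v := by omega
  rw [h4, Nat.add_mul_div_left _ _ (Nat.two_pow_pos m), Nat.div_eq_of_lt (by omega), zero_add]

theorem log_eq {m x : ℕ} (h : x < 2 ^ m) : Nat.log 2 (2 ^ m + x) = m := by
  refine Nat.log_eq_of_pow_le_of_lt_pow (Nat.le_add_right _ _) ?_
  rw [pow_succ 2 m]
  omega

theorem num_lt_len {u : List Bool} {m : ℕ} (hu : u.length ≤ m) : num u < 2 ^ (m + 1) :=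
  (num_lt' u).trans_le (Nat.pow_le_pow_right (by norm_num) (by omega))

theorem gSIZ : GoalSIZ := by
  refine ⟨2 ^ 20, fun M s h k D o o' hD hDs ho ho' => ?_⟩
  set E := D * (h + 4) + 2 * s + k + 4 with hE
  have hE1 : 1 ≤ E := by omega
  have hEh : h ≤ D * (h + 4) := by nlinarith
  have hED : 4 * D ≤ D * (h + 4) := by nlinarith
  have hEK : E ≤ 8 * (D * (h + 1) + s + k) := by
    have h1 : D * (h + 4) ≤ 4 * (D * (h + 1)) := by nlinarith
    have h2 : 4 ≤ 4 * (D * (h + 1)) := by nlinarith [Nat.mul_pos hD (Nat.succ_pos h)]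
    omega
  have le2 : ∀ {a b : ℕ}, a < b → 2 ^ a < 2 ^ b := fun h => Nat.pow_lt_pow_right (by norm_num) h
  have lt2 : ∀ {x a b : ℕ}, x < 2 ^ a → a ≤ b → x < 2 ^ b := fun h1 h2 =>
    h1.trans_le (Nat.pow_le_pow_right (by norm_num) h2)
  have hok : okP (par s h k D o o') ≠ 0 := by
    rw [okP_iff]
    unfold par
    rw [pbs_prm, pQ_prm, pD_prm, pR_prm]
    refine ⟨by positivity, by positivity, hD, ?_, ?_⟩
    · rw [← pow_mul]
      exact Nat.pow_le_pow_right (by norm_num) (by nlinarith)
    · rw [show (16 : ℕ) = 2 ^ 4 by norm_num, ← pow_mul]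
      exact Nat.pow_le_pow_right (by norm_num) (by nlinarith)
  have hpar : par s h k D o o' < 2 ^ (2 ^ 8 * E) := by
    have h1 := cdl_lt' (E := E) (m := 8) (e := 2 ^ 8 * E)
        [2 ^ (2 * s + 2), 2 ^ s, 2 ^ h, D, o, o', 2 ^ k, 2 ^ (D * (h + 4))] (by
      intro a ha
      simp only [List.mem_cons, List.not_mem_nil, or_false] at ha
      rcases ha with rfl | rfl | rfl | rfl | rfl | rfl | rfl | rfl
      · exact le2 (by omega)
      · exact le2 (by omega)
      · exact le2 (by omega)
      · exact lt2 hDs (by omega)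
      · exact lt2 ho (by omega)
      · exact lt2 ho' (by omega)
      · exact le2 (by omega)
      · exact le2 (by omega)) rfl rfl
    exact h1
  have hpos : 0 < par s h k D o o' := by
    refine lt_of_lt_of_le (b := 2 ^ (2 * s + 2)) (by positivity) ?_
    exact Nat.left_le_pair _ _
  clear_value E
  refine ⟨hok, ?_, ?_⟩
  · have h1 := length_wd_le hpos (lt2 hpar (Nat.le_succ _))
    refine h1.trans ?_
    omega
  · intro φ n ω i W e κ hφ hn hω hi hW he hκ
    set π := par s h k D o o' with hπ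
    have hbs : pbs π = 2 ^ (2 * s + 2) := pbs_prm _ _ _ _ _ _ _ _
    -- the small part
    have hs1 : Nat.pair e κ < 2 ^ (2 * s + 2) := by
      refine (Nat.pair_lt_max_add_one_sq e κ).trans_le ?_
      have h1 : max e κ + 1 ≤ 2 ^ (s + 1) := by
        have h2 : 1 ≤ 2 ^ s := Nat.one_le_two_pow
        rw [pow_succ]
        have := max_le he hκ.le
        omega
      calc (max e κ + 1) ^ 2 ≤ (2 ^ (s + 1)) ^ 2 := Nat.pow_le_pow_left h1 2
        _ = 2 ^ (2 * s + 2) := by rw [← pow_mul]; ring_nf
    have hsm : sma π e κ = 2 ^ (2 * s + 2) + Nat.pair e κ := by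
      unfold sma
      rw [hbs]
    have hsm0 : 0 < sma π e κ := by
      rw [hsm]
      exact Nat.add_pos_left (Nat.two_pow_pos _) _
    have hlen : (wd (sma π e κ)).length = 2 * s + 2 := by
      rw [length_wd hsm0, hsm]
      exact log_eq hs1
    have hlen2 : (sd (wd (sma π e κ))).length = 4 * s + 5 := by
      rw [length_sd, hlen]
      ring
    -- the large part
    have hbg0 : 0 < big π φ n ω i W := by
      unfold big
      omega
    have hbg : big π φ n ω i W ≤ 2 ^ (2 ^ 14 * E) := by
      have hW' : W < 2 ^ (4 * D) := by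
        rw [pow_mul]
        exact hW
      have h8 : E ≤ 2 ^ 8 * E := by omega
      have h1 := cdl_lt' (E := 2 ^ 8 * E) (m := 6) (e := 2 ^ 14 * E) [π, φ, n, ω, i, W] (by
        intro a ha
        simp only [List.mem_cons, List.not_mem_nil, or_false] at ha
        rcases ha with rfl | rfl | rfl | rfl | rfl | rfl
        · exact hpar
        · have h3 : (2 : ℕ) ^ 1 < 2 ^ (2 ^ 8 * E) := le2 (by omega)
          omega
        · exact lt2 hn (by omega)
        · exact lt2 hω (by omega)
        · exact lt2 (lt_of_le_of_lt hi hDs) (by omega)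
        · exact lt2 hW' (by omega)) rfl (by omega)
      unfold big
      omega
    have hbl : (wd (big π φ n ω i W)).length ≤ 2 ^ 14 * E :=
      length_wd_le hbg0 (lt_of_le_of_lt hbg (le2 (Nat.lt_succ_self _)))
    -- the code
    set u := sd (wd (sma π e κ)) with hu
    set v := wd (big π φ n ω i W) with hv
    have hcat : catN (sdN (sma π e κ)) (big π φ n ω i W) = num (u ++ v) := by
      have h1 : sdN (sma π e κ) = num u := by
        rw [hu, ← sdN_num, num_wd hsm0]
      have h2 : big π φ n ω i W = num v := by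
        rw [hv, num_wd hbg0]
      rw [h1]
      conv_lhs => rw [h2]
      exact catN_num u v
    obtain ⟨f, hf, hst⟩ : ∃ f ≤ 1, stt M π φ n ω i W e κ = f + 2 * num (u ++ v) := by
      refine ⟨ifz φ 0 (ifz (M.acc κ) 0 1), ?_, ?_⟩
      · unfold ifz
        split_ifs <;> omega
      · unfold stt
        rw [hcat]
    have hN0 : 0 < num (u ++ v) := Pool.Agent.Helper78.Avg.num_pos _
    have hst0 : 0 < stt M π φ n ω i W e κ := by omega
    refine ⟨?_, ?_⟩
    · have h1 : (u ++ v).length ≤ 4 * s + 5 + 2 ^ 14 * E := by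
        rw [List.length_append, hlen2]
        omega
      have h2 := num_lt_len h1
      have h3 : stt M π φ n ω i W e κ < 2 ^ ((4 * s + 5 + 2 ^ 14 * E + 1) + 1) := by
        rw [pow_succ 2 (4 * s + 5 + 2 ^ 14 * E + 1)]
        omega
      refine (length_wd_le hst0 h3).trans ?_
      omega
    · rw [num_wd hst0, hst, pow_succ 2 (4 * s + 5), mul_comm (2 ^ (4 * s + 5)) 2,
        ← Nat.div_div_eq_div_mul]
      have h1 : (f + 2 * num (u ++ v)) / 2 = num (u ++ v) := by omega
      rw [h1, num_div hlen2, hv, num_wd hbg0]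

end Pool.Agent.Helper31.UR2
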